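import Pool.Agent.N728.QL.Def

/-!
# Project QL (helper728), task QBA

The sum of `1 / (m log m)` over the integers `m > 1` which divide the product of the primes in `(w, y]`. The part of
the integers with the largest prime factor `p` is at most `1 / (p log p)` times the sum of the `1 / k` over the
divisors `k` of the product of the primes in `(w, p - 1]`, which is at most `C / (p log w)` by Mertens.
-/

set_option autoImplicit false

namespace Pool.Agent.N547.QL

open Finset Pool.Agent.N728.QL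

lemma Ioc_succ (w y : ℕ) (h : w ≤ y) : Ioc w (y + 1) = insert (y + 1) (Ioc w y) := by
  ext x
  simp only [mem_Ioc, mem_insert]
  omega

lemma PP_succ (w y : ℕ) (h : w ≤ y) :
    PP w (y + 1) = if (y + 1).Prime then PP w y * (y + 1) else PP w y := by
  unfold PP
  rw [Ioc_succ w y h, filter_insert]
  split_ifs with hp
  · rw [prod_insert (by simp), mul_comm]
  · rfl

lemma VW_succ (w y : ℕ) (h : w ≤ y) :
    VW w (y + 1) = if (y + 1).Prime then VW w y * (1 - 1 / ((y + 1 : ℕ) : ℝ)) else VW w y := by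
  unfold VW
  rw [Ioc_succ w y h, filter_insert]
  split_ifs with hp
  · rw [prod_insert (by simp), mul_comm]
  · rfl

lemma PP_ne (w y : ℕ) : PP w y ≠ 0 := by
  unfold PP
  refine Finset.prod_ne_zero_iff.2 fun p hp => ?_
  exact (mem_filter.1 hp).2.ne_zero

lemma not_dvd_PP (w y : ℕ) (hp : (y + 1).Prime) : ¬ (y + 1) ∣ PP w y := by
  unfold PP
  rw [hp.prime.dvd_finsetProd_iff]
  rintro ⟨q, hq, h⟩
  rw [mem_filter, mem_Ioc] at hq
  have := Nat.le_of_dvd hq.2.pos h
  omega

lemma VW_pos (w y : ℕ) : 0 < VW w y := by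
  unfold VW
  refine Finset.prod_pos fun p hp => ?_
  have h2 := (mem_filter.1 hp).2.one_lt
  have h3 : (1 : ℝ) < p := by exact_mod_cast h2
  have : 1 / (p : ℝ) < 1 := by rw [div_lt_one (by linarith)]; exact h3
  linarith

lemma sum_div (n p : ℕ) (hp : p.Prime) (hn : n ≠ 0) (hpn : ¬ p ∣ n) (f : ℕ → ℝ) :
    ∑ m ∈ (n * p).divisors, f m = ∑ k ∈ n.divisors, f k + ∑ k ∈ n.divisors, f (k * p) := by
  have h1 : (n * p).divisors = n.divisors ∪ n.divisors.image (fun k => k * p) := by
    ext m
    simp only [mem_union, mem_image, Nat.mem_divisors]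
    constructor
    · rintro ⟨h, _⟩
      by_cases hm : p ∣ m
      · obtain ⟨k, rfl⟩ := hm
        right
        refine ⟨k, ⟨?_, hn⟩, mul_comm _ _⟩
        have h' : p * k ∣ p * n := by rwa [mul_comm n p] at h
        exact Nat.dvd_of_mul_dvd_mul_left hp.pos h'
      · left
        exact ⟨Nat.Coprime.dvd_of_dvd_mul_right ((Nat.Prime.coprime_iff_not_dvd hp).2 hm).symm h, hn⟩
    · rintro (⟨h, _⟩ | ⟨k, ⟨h, _⟩, rfl⟩)
      · exact ⟨h.mul_right p, Nat.mul_ne_zero hn hp.ne_zero⟩
      · exact ⟨Nat.mul_dvd_mul_right h p, Nat.mul_ne_zero hn hp.ne_zero⟩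
  have h2 : Disjoint n.divisors (n.divisors.image (fun k => k * p)) := by
    rw [disjoint_left]
    rintro m hm hm'
    obtain ⟨k, _, rfl⟩ := mem_image.1 hm'
    exact hpn ((Dvd.intro_left k rfl).trans (Nat.dvd_of_mem_divisors hm))
  rw [h1, sum_union h2, sum_image]
  intro a _ b _ hab
  exact Nat.eq_of_mul_eq_mul_right hp.pos hab

/-- the sum of the reciprocals of the divisors -/
lemma sum_inv_le (w y : ℕ) (h : w ≤ y) : ∑ k ∈ (PP w y).divisors, 1 / (k : ℝ) ≤ (VW w y)⁻¹ := by
  induction y, h using Nat.le_induction with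
  | base => simp [PP, VW]
  | succ y hy ih =>
    rw [PP_succ w y hy, VW_succ w y hy]
    split_ifs with hp
    · rw [sum_div _ _ hp (PP_ne w y) (not_dvd_PP w y hp)]
      have hp1 : (1 : ℝ) < ((y + 1 : ℕ) : ℝ) := by exact_mod_cast hp.one_lt
      set P : ℝ := ((y + 1 : ℕ) : ℝ) with hP
      have e : ∑ k ∈ (PP w y).divisors, 1 / ((k * (y + 1) : ℕ) : ℝ) =
          (∑ k ∈ (PP w y).divisors, 1 / (k : ℝ)) * (1 / P) := by
        rw [sum_mul]
        refine sum_congr rfl fun k _ => ?_
        rw [Nat.cast_mul, ← hP]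
        rw [div_mul_div_comm, one_mul]
      rw [e]
      have h0 : 0 ≤ ∑ k ∈ (PP w y).divisors, 1 / (k : ℝ) := by positivity
      have hV := VW_pos w y
      have h3 : 1 + 1 / P ≤ (1 - 1 / P)⁻¹ := by
        have h4 : 0 < 1 - 1 / P := by
          have : 1 / P < 1 := by rw [div_lt_one (by linarith)]; exact hp1
          linarith
        rw [le_inv_comm₀ (by positivity) h4, ← one_div, le_div_iff₀ (by positivity)]
        nlinarith [sq_nonneg (1 / P)]
      calc (∑ k ∈ (PP w y).divisors, 1 / (k : ℝ)) + (∑ k ∈ (PP w y).divisors, 1 / (k : ℝ)) * (1 / P)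
          = (∑ k ∈ (PP w y).divisors, 1 / (k : ℝ)) * (1 + 1 / P) := by ring
        _ ≤ (VW w y)⁻¹ * (1 - 1 / P)⁻¹ := by
            apply mul_le_mul ih h3 (by positivity) (by positivity)
        _ = (VW w y * (1 - 1 / P))⁻¹ := by rw [mul_inv]
    · exact ih

/-- the main step -/
lemma sum_le (w : ℕ) (C : ℝ) (hw : 2 ≤ w) (hC : 0 ≤ C)
    (hM : ∀ y, w ≤ y → (VW w y)⁻¹ ≤ C * (Real.log y / Real.log w)) (y : ℕ) (h : w ≤ y) :
    ∑ m ∈ (PP w y).divisors.filter (fun m => m ≠ 1), 1 / ((m : ℝ) * Real.log m) ≤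
      C / Real.log w * ∑ p ∈ (Ioc w y).filter Nat.Prime, 1 / (p : ℝ) := by
  have hlw : 0 < Real.log w := Real.log_pos (by exact_mod_cast hw)
  have key : ∀ n : ℕ, ∑ m ∈ n.divisors.filter (fun m => m ≠ 1), 1 / ((m : ℝ) * Real.log m) =
      ∑ m ∈ n.divisors, 1 / ((m : ℝ) * Real.log m) := by
    intro n
    rw [sum_filter]
    refine sum_congr rfl fun m _ => ?_
    split_ifs with h1
    · rfl
    · have : m = 1 := by simpa using h1
      simp [this]
  rw [key]
  induction y, h using Nat.le_induction with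
  | base => simp [PP]
  | succ y hy ih =>
    rw [PP_succ w y hy, Ioc_succ w y hy, filter_insert]
    split_ifs with hp
    · rw [sum_div _ _ hp (PP_ne w y) (not_dvd_PP w y hp), sum_insert (by simp)]
      have hp1 : (1 : ℝ) < ((y + 1 : ℕ) : ℝ) := by exact_mod_cast hp.one_lt
      set P : ℝ := ((y + 1 : ℕ) : ℝ) with hP
      have hlP : 0 < Real.log P := Real.log_pos hp1
      have e : ∑ k ∈ (PP w y).divisors, 1 / (((k * (y + 1) : ℕ) : ℝ) * Real.log ((k * (y + 1) : ℕ) : ℝ)) ≤
          (∑ k ∈ (PP w y).divisors, 1 / (k : ℝ)) * (1 / (P * Real.log P)) := by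
        rw [sum_mul]
        refine sum_le_sum fun k hk => ?_
        have hk1 : 1 ≤ k := Nat.pos_of_mem_divisors hk
        have hk2 : (1 : ℝ) ≤ k := by exact_mod_cast hk1
        rw [Nat.cast_mul, ← hP, div_mul_div_comm, one_mul]
        apply one_div_le_one_div_of_le (by positivity)
        rw [← mul_assoc]
        apply mul_le_mul_of_nonneg_left _ (by positivity)
        apply Real.log_le_log (by linarith)
        nlinarith
      have h5 : ∑ k ∈ (PP w y).divisors, 1 / (k : ℝ) ≤ C * (Real.log P / Real.log w) := by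
        refine (sum_inv_le w y hy).trans ((hM y hy).trans ?_)
        apply mul_le_mul_of_nonneg_left _ hC
        apply div_le_div_of_nonneg_right _ hlw.le
        apply Real.log_le_log (by exact_mod_cast (by omega : 0 < y))
        rw [hP]
        exact_mod_cast Nat.le_succ y
      have h6 : (∑ k ∈ (PP w y).divisors, 1 / (k : ℝ)) * (1 / (P * Real.log P)) ≤
          C / Real.log w * (1 / P) := by
        calc (∑ k ∈ (PP w y).divisors, 1 / (k : ℝ)) * (1 / (P * Real.log P))
            ≤ C * (Real.log P / Real.log w) * (1 / (P * Real.log P)) :=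
              mul_le_mul_of_nonneg_right h5 (by positivity)
          _ = C / Real.log w * (1 / P) := by
              field_simp
      rw [mul_add]
      linarith
    · exact ih

/-- the sum of the reciprocals of the primes -/
lemma sum_prime_le (w y : ℕ) :
    ∑ p ∈ (Ioc w y).filter Nat.Prime, 1 / (p : ℝ) ≤ Real.log (VW 0 y)⁻¹ := by
  have h1 : ∑ p ∈ (Ioc w y).filter Nat.Prime, 1 / (p : ℝ) ≤ ∑ p ∈ (Ioc 0 y).filter Nat.Prime, 1 / (p : ℝ) := by
    apply sum_le_sum_of_subset_of_nonneg
    · intro p hp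
      simp only [mem_filter, mem_Ioc] at hp ⊢
      exact ⟨⟨by omega, hp.1.2⟩, hp.2⟩
    · intros; positivity
  refine h1.trans ?_
  rw [Real.log_inv]
  unfold VW
  rw [Real.log_prod, ← sum_neg_distrib]
  · refine sum_le_sum fun p hp => ?_
    have h2 := (mem_filter.1 hp).2.one_lt
    have h3 : (1 : ℝ) < p := by exact_mod_cast h2
    have h4 : 0 < 1 - 1 / (p : ℝ) := by
      have : 1 / (p : ℝ) < 1 := by rw [div_lt_one (by linarith)]; exact h3
      linarith
    have := Real.log_le_sub_one_of_pos h4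
    linarith
  · intro p hp
    have h2 := (mem_filter.1 hp).2.one_lt
    have h3 : (1 : ℝ) < p := by exact_mod_cast h2
    have h4 : 0 < 1 - 1 / (p : ℝ) := by
      have : 1 / (p : ℝ) < 1 := by rw [div_lt_one (by linarith)]; exact h3
      linarith
    exact h4.ne'

/-- Task QBA. -/
theorem t_QBA (h : S_MER) : S_QBA := by
  obtain ⟨C, hC, h1, h2⟩ := h
  refine ⟨C * (1 + Real.log C), by have := Real.log_nonneg hC; positivity, fun w y hw hwy hy => ?_⟩
  have hlw : 0 < Real.log w := Real.log_pos (by exact_mod_cast hw)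
  have hly : 1 < Real.log y := by
    have h3 : Real.log 3 ≤ Real.log y := Real.log_le_log (by norm_num) (by exact_mod_cast hy)
    have h4 : (1 : ℝ) < Real.log 3 := by
      rw [Real.lt_log_iff_exp_lt (by norm_num)]
      exact Real.exp_one_lt_d9.trans (by norm_num)
    linarith
  have hlly : 0 ≤ Real.log (Real.log y) := Real.log_nonneg hly.le
  have hlC : 0 ≤ Real.log C := Real.log_nonneg hC
  refine (sum_le w C hw (by linarith) (fun y' hy' => (h1 w y' hw hy').2) y hwy).trans ?_
  have h5 : ∑ p ∈ (Ioc w y).filter Nat.Prime, 1 / (p : ℝ) ≤ Real.log C + Real.log (Real.log y) := by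
    refine (sum_prime_le w y).trans ?_
    rw [← Real.log_mul (by linarith) (by linarith)]
    apply Real.log_le_log (inv_pos.2 (VW_pos 0 y))
    exact (h2 y (by omega)).2
  have h6 : Real.log C + Real.log (Real.log y) ≤ (1 + Real.log C) * (1 + Real.log (Real.log y)) := by
    nlinarith [mul_nonneg hlC hlly]
  calc C / Real.log w * ∑ p ∈ (Ioc w y).filter Nat.Prime, 1 / (p : ℝ)
      ≤ C / Real.log w * ((1 + Real.log C) * (1 + Real.log (Real.log y))) :=
        mul_le_mul_of_nonneg_left (h5.trans h6) (by positivity)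
    _ = C * (1 + Real.log C) * (1 + Real.log (Real.log y)) / Real.log w := by ring

end Pool.Agent.N547.QL
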